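import Mathlib
import Pool.Agent.Lib.MP_a6d962_lc.Defs
import Pool.Agent.Lib.MP_a6d962_lc.Main

/-!
If every family of `κ` members of `U` has an uncountable subfamily with intersection in `U`, where
`κ` is uncountable and `2 ^ l ≤ 𝔠` for all `l < κ`, then exactly continuum many ultrafilters are
Tukey reducible to `U`, and the Tukey type of `U` has cardinality continuum.
-/

open Cardinal Set
open Pool.Agent.Lib.MP_a6d962_lc

theorem Pool.Agent.Results.MP_a6d962_lc.CaliberCount.result (U : Ultrafilter ℕ) (hU : ∀ n : ℕ, ({n} : Set ℕ) ∉ U) (κ : Cardinal.{0})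
    (hκ : ℵ₀ < κ) (hpow : ∀ l < κ, 2 ^ l ≤ 𝔠)
    (hcal : ∀ (ι : Type) (X : ι → Set ℕ), #ι = κ → (∀ i, X i ∈ U) →
      ∃ I : Set ι, ¬ I.Countable ∧ (⋂ i ∈ I, X i) ∈ U) :
    #{V : Ultrafilter ℕ // TukeyLE V U} = 𝔠 ∧
      #{V : Ultrafilter ℕ // TukeyLE V U ∧ TukeyLE U V} = 𝔠 :=
  main U hU κ hκ hpow hcal
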