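import Mathlib
import Pool.Agent.Lib.MP_a6d962_lc.ZfLit
import Pool.Agent.Lib.MP_a6d962_lc.Cs.Model

/-!
# It is consistent with ZFC that a Tukey type of ultrafilters below the top has more than
# continuum many members

`NotQ1 E` is the negation of Q1, a sentence of the language of set theory, read in the structure
`(M, E)`: there are nonprincipal ultrafilters `u` and `v` on `ω` such that `v` is not Tukey
reducible to `u`, and a set of nonprincipal ultrafilters Tukey equivalent to `u` which has no
injection into the power set of `ω`.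

* (i) There is a countable model of ZFC in which `NotQ1` holds.  It comes from the forcing with
  conditions `(I, W, B)`, where `I ⊆ 𝔠⁺` and `W` are countable and `B i d` (`i ∈ I`, `d ∈ W`) are
  subsets of `ω` such that for finite `a, e ⊆ W` either some `f ∈ e` has
  `⋂ d ∈ a, B i d ⊆ B i f` for all `i ∈ I`, or `⋂ d ∈ a, B i d` without `⋃ f ∈ e, B i f` is
  infinite for all `i ∈ I`.  This forcing is `σ`-closed and has the `𝔠⁺`-chain condition.  It adds
  `𝔠⁺` different ultrafilters with order isomorphic bases, and every uncountable subset of such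
  a base has an infinite subset with a lower bound in the base.
* (ii) `NotQ1`, read in the universe of sets (`ZFSet.{0}` of Mathlib), is equivalent to the
  negation of Q1 (word for word the frozen statement S15174).
-/

open Pool.Agent.Lib.Forcing
open Pool.Agent.Lib.MP_a6d962_lc

/-- (i) There is a countable model of ZFC in which the negation of Q1 holds.
(ii) The sentence used in (i), read in the universe of sets, is the negation of Q1. -/
theorem Pool.Agent.Results.MP_a6d962_lc.LargeTukeyType.result :
    (∃ (M : Type) (E : M → M → Prop), Countable M ∧ IsZFC M E ∧ NotQ1 E) ∧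
    (NotQ1 (fun x y : ZFSet.{0} => x ∈ y) ↔
      ¬ (∀ U : Ultrafilter ℕ, (∀ n : ℕ, ({n} : Set ℕ) ∉ U) →
        (∃ V : Ultrafilter ℕ, ¬ ∃ g : Set ℕ → Set ℕ, (∀ A ∈ U, g A ∈ V) ∧
            ∀ B ∈ V, ∃ A ∈ U, ∀ A' ∈ U, A' ⊆ A → g A' ⊆ B) →
        Cardinal.mk {W : Ultrafilter ℕ //
          (∃ g : Set ℕ → Set ℕ, (∀ A ∈ U, g A ∈ W) ∧
            ∀ B ∈ W, ∃ A ∈ U, ∀ A' ∈ U, A' ⊆ A → g A' ⊆ B) ∧
          (∃ g : Set ℕ → Set ℕ, (∀ A ∈ W, g A ∈ U) ∧
            ∀ B ∈ U, ∃ A ∈ W, ∀ A' ∈ W, A' ⊆ A → g A' ⊆ B)} = Cardinal.continuum)) :=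
  ⟨Cs.exists_notQ1_model, notQ1_iff⟩
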